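import Pool.Agent.NonUnitary.Final

/-!
# MP_3f4d1a_nt: elements of `A` with at most three primes whose square divides them
-/

namespace Pool.Agent.Results.MP_3f4d1a_nt.ThreeSquares

open Finset

/-- Let `n ≥ 1` satisfy `sigma(n) = 2 sigma*(n)` (the sum of all divisors is twice the sum of the
unitary divisors) and suppose that at most three primes `p` satisfy `p^2 ∣ n`. Then
`n = 108 s` with `s` squarefree and coprime to `6`; in particular `n ≡ 108 (mod 216)`. -/
theorem result (n : ℕ) (hn : 1 ≤ n)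
    (hA : ∑ d ∈ n.divisors, d = 2 * ∑ d ∈ n.divisors with Nat.Coprime d (n / d), d)
    (h3 : (n.primeFactors.filter (fun p => p ^ 2 ∣ n)).card ≤ 3) :
    n % 216 = 108 ∧ ∃ s : ℕ, Squarefree s ∧ Nat.Coprime s 6 ∧ n = 108 * s := by
  have hn' : n ≠ 0 := by omega
  obtain ⟨h2, h3', h⟩ := Pool.Agent.NonUnitary.classify hn' hA h3
  exact Pool.Agent.NonUnitary.conclusion hn' h2 h3' h

end Pool.Agent.Results.MP_3f4d1a_nt.ThreeSquares
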